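import Pool.Agent.H2.CI3

namespace Pool.Agent.Results.MP_325c15_al.AllQuot

open Pool.Agent.H2.CI

theorem result (T : AddSubmonoid ℕ) (hT : IsNum T) :
    ∃ (S : AddSubmonoid ℕ) (d : ℕ), IsNum S ∧ IsCI S ∧ 1 ≤ d ∧ ∀ x, x ∈ T ↔ d * x ∈ S :=
  main T hT

end Pool.Agent.Results.MP_325c15_al.AllQuot
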